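import Pool.Agent.H667R3.W2
import Mathlib.Analysis.Calculus.InverseFunctionTheorem.Deriv

/-!
Elliptic logarithms near a point of an elliptic curve.
-/

set_option autoImplicit false

open Filter Topology PeriodPair

namespace Pool.Agent.NH19.EL

/-- the version for the zeta function of `H667R3` -/
theorem wp_near' (L : PeriodPair) {u : ℂ} (hu : u ∉ L.lattice) (hu' : ℘'[L] u ≠ 0)
    (wi F0 F1 : ℂ → ℂ) (h0 : wi 0 = 1) (hc : ∀ᶠ s in 𝓝 0, ContinuousAt wi s)
    (h2 : ∀ᶠ s in 𝓝 0,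
      wi s ^ 2 * (4 * (℘[L] u + s) ^ 3 - L.g₂ * (℘[L] u + s) - L.g₃) = ℘'[L] u ^ 2)
    (hF0 : F0 0 = 0) (hd0 : ∀ᶠ s in 𝓝 0, HasDerivAt F0 (wi s / ℘'[L] u) s)
    (hF1 : F1 0 = 0)
    (hd1 : ∀ᶠ s in 𝓝 0, HasDerivAt F1 ((℘[L] u + s) * wi s / ℘'[L] u) s) :
    ∀ᶠ s in 𝓝 0, u + F0 s ∉ L.lattice ∧ ℘[L] (u + F0 s) = ℘[L] u + s ∧
      H667R3.zeta L (u + F0 s) = H667R3.zeta L u - F1 s := by
  have hcompl : IsOpen ((L.lattice : Set ℂ)ᶜ) := L.isClosed_lattice.isOpen_compl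
  have hP : HasStrictDerivAt ℘[L] (℘'[L] u) u := by
    have h := (L.analyticOnNhd_weierstrassP u hu).hasStrictDerivAt
    rwa [L.deriv_weierstrassP] at h
  let hf := hP.hasStrictFDerivAt_equiv hu'
  let e := hf.toOpenPartialHomeomorph
  have he : ∀ z, e z = ℘[L] z := fun _ => rfl
  have hus : u ∈ e.source := hf.mem_toOpenPartialHomeomorph_source
  have hut : ℘[L] u ∈ e.target := hf.image_mem_toOpenPartialHomeomorph_target
  have heu : e.symm (℘[L] u) = u := e.left_inv hus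
  let ψ : ℂ → ℂ := fun s => e.symm (℘[L] u + s)
  have hψ0 : ψ 0 = u := by simp only [ψ, add_zero, heu]
  have hadd : Tendsto (fun s : ℂ => ℘[L] u + s) (𝓝 0) (𝓝 (℘[L] u)) := by
    have : Continuous (fun s : ℂ => ℘[L] u + s) := by fun_prop
    have h := this.tendsto 0
    rwa [add_zero] at h
  have ht : ∀ᶠ s in 𝓝 (0 : ℂ), ℘[L] u + s ∈ e.target := hadd (e.open_target.mem_nhds hut)
  have hψc : ∀ s : ℂ, ℘[L] u + s ∈ e.target → ContinuousAt ψ s := by
    intro s hs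
    have h1 := e.symm.continuousAt (x := ℘[L] u + s) hs
    exact ContinuousAt.comp (f := fun s : ℂ => ℘[L] u + s) h1 (by fun_prop)
  have hψe : ∀ s : ℂ, ℘[L] u + s ∈ e.target → ℘[L] (ψ s) = ℘[L] u + s := fun s hs =>
    e.right_inv hs
  have hc0 : ContinuousAt ψ 0 := hψc 0 ht.self_of_nhds
  have hn : ∀ᶠ s in 𝓝 (0 : ℂ), ψ s ∉ L.lattice := by
    have h1 : (L.lattice : Set ℂ)ᶜ ∈ 𝓝 (ψ 0) := by
      rw [hψ0]
      exact hcompl.mem_nhds hu
    exact hc0 h1
  -- the sign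
  have hw : ∀ᶠ s in 𝓝 (0 : ℂ), wi s * ℘'[L] (ψ s) = ℘'[L] u := by
    have hcw : ContinuousAt (fun s => wi s * ℘'[L] (ψ s) + ℘'[L] u) 0 := by
      have h1 : ContinuousAt ℘'[L] (ψ 0) := by
        rw [hψ0]
        exact (L.analyticOnNhd_derivWeierstrassP u hu).continuousAt
      exact (hc.self_of_nhds.mul (h1.comp hc0)).add continuousAt_const
    have hne : wi 0 * ℘'[L] (ψ 0) + ℘'[L] u ≠ 0 := by
      rw [h0, hψ0, one_mul, ← two_mul]
      exact mul_ne_zero two_ne_zero hu'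
    filter_upwards [hcw.eventually_ne hne, hn, h2, ht] with s h3 h4 h5 h6
    have h7 : (wi s * ℘'[L] (ψ s) - ℘'[L] u) * (wi s * ℘'[L] (ψ s) + ℘'[L] u) = 0 := by
      have h8 := L.derivWeierstrassP_sq (ψ s) h4
      rw [hψe s h6] at h8
      rw [← h8] at h5
      linear_combination h5
    rcases mul_eq_zero.1 h7 with h8 | h8
    · exact sub_eq_zero.1 h8
    · exact absurd h8 h3
  -- a ball on which everything holds
  obtain ⟨δ, hδ, hball⟩ := Metric.eventually_nhds_iff_ball.1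
    ((((hn.and hw).and ht).and hd0).and hd1)
  have h00 : (0 : ℂ) ∈ Metric.ball (0 : ℂ) δ := Metric.mem_ball_self hδ
  have hpre : IsPreconnected (Metric.ball (0 : ℂ) δ) := (convex_ball 0 δ).isPreconnected
  have hψd : ∀ s ∈ Metric.ball (0 : ℂ) δ, HasDerivAt ψ (wi s / ℘'[L] u) s := by
    intro s hs
    obtain ⟨⟨⟨⟨h3, h4⟩, h5⟩, h6⟩, h7⟩ := hball s hs
    have h8 : ℘'[L] (ψ s) ≠ 0 := by
      intro h9
      rw [h9, mul_zero] at h4
      exact hu' h4.symm
    have h9 : HasDerivAt e.symm (℘'[L] (ψ s))⁻¹ (℘[L] u + s) :=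
      HasDerivAt.of_local_left_inverse (e.symm.continuousAt h5)
        (H667R3.hasDerivAt_weierstrassP L h3) h8
        (by filter_upwards [e.open_target.mem_nhds h5] with y hy using e.right_inv hy)
    have h10 : HasDerivAt ψ (℘'[L] (ψ s))⁻¹ s := h9.comp_const_add (℘[L] u) s
    have h11 : (℘'[L] (ψ s))⁻¹ = wi s / ℘'[L] u := by
      rw [← h4]
      have h12 : wi s ≠ 0 := by
        intro h13
        rw [h13, zero_mul] at h4
        exact hu' h4.symm
      field_simp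
    rwa [h11] at h10
  have hψeq : ∀ s ∈ Metric.ball (0 : ℂ) δ, ψ s = u + F0 s := by
    intro s hs
    have hd : ∀ s ∈ Metric.ball (0 : ℂ) δ, HasDerivAt (fun s => ψ s - F0 s) 0 s := by
      intro s hs
      have := (hψd s hs).sub (hball s hs).1.2
      rwa [sub_self] at this
    have h3 := Metric.isOpen_ball.is_const_of_deriv_eq_zero hpre
      (fun s hs => (hd s hs).differentiableAt.differentiableWithinAt)
      (fun s hs => (hd s hs).deriv) hs h00
    simp only [hψ0, hF0, sub_zero] at h3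
    rw [← h3]
    ring
  have hz : ∀ s ∈ Metric.ball (0 : ℂ) δ, H667R3.zeta L (ψ s) = H667R3.zeta L u - F1 s := by
    intro s hs
    have hd : ∀ s ∈ Metric.ball (0 : ℂ) δ,
        HasDerivAt (fun s => H667R3.zeta L (ψ s) + F1 s) 0 s := by
      intro s hs
      obtain ⟨⟨⟨⟨h3, h4⟩, h5⟩, h6⟩, h7⟩ := hball s hs
      have h8 := (H667R3.hasDerivAt_zeta L h3).comp s (hψd s hs)
      have h9 := h8.add h7
      have h10 : -℘[L] (ψ s) * (wi s / ℘'[L] u) + (℘[L] u + s) * wi s / ℘'[L] u = 0 := by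
        rw [hψe s h5]
        ring
      rw [h10] at h9
      exact h9
    have h3 := Metric.isOpen_ball.is_const_of_deriv_eq_zero hpre
      (fun s hs => (hd s hs).differentiableAt.differentiableWithinAt)
      (fun s hs => (hd s hs).deriv) hs h00
    simp only [hψ0, hF1, add_zero] at h3
    rw [← h3]
    ring
  filter_upwards [Metric.ball_mem_nhds (0 : ℂ) hδ] with s hs
  obtain ⟨⟨⟨⟨h3, h4⟩, h5⟩, h6⟩, h7⟩ := hball s hs
  rw [← hψeq s hs]
  exact ⟨h3, hψe s h5, hz s hs⟩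

end Pool.Agent.NH19.EL
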