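import Pool.Agent.NH19.EL.Near
import Pool.Agent.Y916.HStm

/-!
Elliptic logarithms near a point of an elliptic curve, for the zeta function of `Y916`.
-/

set_option autoImplicit false

open Filter Topology PeriodPair

namespace Pool.Agent.NH19.EL

theorem wp_near (L : PeriodPair) {u : ℂ} (hu : u ∉ L.lattice) (hu' : ℘'[L] u ≠ 0)
    (wi F0 F1 : ℂ → ℂ) (h0 : wi 0 = 1) (hc : ∀ᶠ s in 𝓝 0, ContinuousAt wi s)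
    (h2 : ∀ᶠ s in 𝓝 0,
      wi s ^ 2 * (4 * (℘[L] u + s) ^ 3 - L.g₂ * (℘[L] u + s) - L.g₃) = ℘'[L] u ^ 2)
    (hF0 : F0 0 = 0) (hd0 : ∀ᶠ s in 𝓝 0, HasDerivAt F0 (wi s / ℘'[L] u) s)
    (hF1 : F1 0 = 0)
    (hd1 : ∀ᶠ s in 𝓝 0, HasDerivAt F1 ((℘[L] u + s) * wi s / ℘'[L] u) s) :
    ∀ᶠ s in 𝓝 0, u + F0 s ∉ L.lattice ∧ ℘[L] (u + F0 s) = ℘[L] u + s ∧
      Pool.Agent.Y916.Hy.zeta L (u + F0 s) = Pool.Agent.Y916.Hy.zeta L u - F1 s :=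
  wp_near' L hu hu' wi F0 F1 h0 hc h2 hF0 hd0 hF1 hd1

end Pool.Agent.NH19.EL
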